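import Mathlib

/-! A Cantor series expansion with prescribed frequencies of blocks. -/

set_option autoImplicit false

open Finset Filter Topology

namespace Q263.CS

/-- enumeration of all finite blocks -/
def L (s : ℕ) : List ℕ := Denumerable.ofNat (List ℕ) s

/-- total length of the first `J` blocks -/
def Lam (J : ℕ) : ℕ := ∑ s ∈ range J, (L s).length

/-- an auxiliary bound -/
def m (J : ℕ) : ℕ := 2 + J + J * Lam J + ∑ s ∈ range J, (L s).sum

/-- the width of a slot in stage `J` -/
def w (J : ℕ) : ℕ := (m J).factorial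

/-- the base in stage `J` -/
def q (J : ℕ) : ℕ := w J * (J + 1)

/-- the permitted additive error in stage `J` -/
def D (J : ℕ) : ℕ := Lam J + 2 * J + 2

/-- cumulated errors -/
def S (J : ℕ) : ℕ := ∑ i ∈ range (J + 1), D i

/-- the beginning of stage `J` -/
def a : ℕ → ℕ
  | 0 => 0
  | J + 1 => q J ^ (J + 2) * ((J + 1) * S (J + 1) + J + 2 + a J)

lemma Lam_mono : Monotone Lam := fun _ _ h =>
  Finset.sum_le_sum_of_subset (Finset.range_mono h)

lemma m_mono : Monotone m := by
  intro J K h
  unfold m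
  have h1 := Lam_mono h
  have h2 : ∑ s ∈ range J, (L s).sum ≤ ∑ s ∈ range K, (L s).sum :=
    Finset.sum_le_sum_of_subset (Finset.range_mono h)
  have h3 : J * Lam J ≤ K * Lam K := Nat.mul_le_mul h h1
  omega

lemma w_mono : Monotone w := fun _ _ h => Nat.factorial_le (m_mono h)

lemma q_mono : Monotone q := fun _ _ h => Nat.mul_le_mul (w_mono h) (by omega)

lemma m_le_w (J : ℕ) : m J ≤ w J := Nat.self_le_factorial _

lemma two_le_w (J : ℕ) : 2 ≤ w J := (by unfold m; omega : 2 ≤ m J).trans (m_le_w J)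

lemma w_pos (J : ℕ) : 0 < w J := by have := two_le_w J; omega

lemma w_le_q (J : ℕ) : w J ≤ q J := Nat.le_mul_of_pos_right _ (by omega)

lemma two_le_q (J : ℕ) : 2 ≤ q J := (two_le_w J).trans (w_le_q J)

lemma q_pos (J : ℕ) : 0 < q J := by have := two_le_q J; omega

lemma succ_le_q (J : ℕ) : J + 1 ≤ q J := Nat.le_mul_of_pos_left _ (w_pos J)

lemma length_le_Lam {s J : ℕ} (h : s < J) : (L s).length ≤ Lam J :=
  Finset.single_le_sum (f := fun s => (L s).length) (fun _ _ => Nat.zero_le _)
    (Finset.mem_range.mpr h)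

lemma length_lt_m {s J : ℕ} (h : s < J) : (L s).length < m J := by
  have h1 := length_le_Lam h
  unfold m
  have : Lam J ≤ J * Lam J := Nat.le_mul_of_pos_left _ (by omega)
  omega

lemma length_lt_w {s J : ℕ} (h : s < J) : (L s).length < w J := (length_lt_m h).trans_le (m_le_w J)

lemma length_dvd_w {s J : ℕ} (h : s < J) (h0 : 0 < (L s).length) : (L s).length ∣ w J :=
  Nat.dvd_factorial h0 (length_lt_m h).le

lemma mem_lt {s J x : ℕ} (h : s < J) (hx : x ∈ L s) : x + 1 < q J := by
  have h1 : x ≤ (L s).sum := List.single_le_sum (fun _ _ => Nat.zero_le _) _ hx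
  have h2 : (L s).sum ≤ ∑ s ∈ range J, (L s).sum :=
    Finset.single_le_sum (f := fun s => (L s).sum) (fun _ _ => Nat.zero_le _)
      (Finset.mem_range.mpr h)
  have h3 : m J ≤ q J := (m_le_w J).trans (w_le_q J)
  unfold m at h3
  omega

lemma J_Lam_le (J : ℕ) : J * Lam J ≤ q J := by
  have h3 : m J ≤ q J := (m_le_w J).trans (w_le_q J)
  unfold m at h3
  omega

lemma a_succ_gt (J : ℕ) : a J + J + 1 < a (J + 1) := by
  rw [a]
  have h1 : 1 ≤ q J ^ (J + 2) := Nat.one_le_pow _ _ (q_pos J)
  have h2 : (J + 1) * S (J + 1) + J + 2 + a J ≤ q J ^ (J + 2) * ((J + 1) * S (J + 1) + J + 2 + a J) :=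
    Nat.le_mul_of_pos_left _ h1
  omega

lemma a_strictMono : StrictMono a := strictMono_nat_of_lt_succ fun J => by
  have := a_succ_gt J; omega

lemma q_dvd_a (J : ℕ) : q J ∣ a (J + 1) := by
  rw [a]
  exact Dvd.dvd.mul_right (dvd_pow_self _ (by omega)) _

lemma exists_stage (n : ℕ) : ∃ J, n < a (J + 1) := by
  refine ⟨n, ?_⟩
  have h1 : n + 1 ≤ a (n + 1) := a_strictMono.id_le _
  omega

/-- the stage containing position `n` -/
def stage (n : ℕ) : ℕ := Nat.find (exists_stage n)

lemma stage_lt (n : ℕ) : n < a (stage n + 1) := Nat.find_spec (exists_stage n)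

lemma le_stage (n : ℕ) : a (stage n) ≤ n := by
  rcases Nat.eq_zero_or_pos (stage n) with h | h
  · rw [h, a]; exact Nat.zero_le _
  · have := Nat.find_min (exists_stage n) (m := stage n - 1) (by unfold stage at h ⊢; omega)
    rw [show stage n - 1 + 1 = stage n by omega] at this
    omega

lemma stage_eq {n J : ℕ} (h1 : a J ≤ n) (h2 : n < a (J + 1)) : stage n = J := by
  have h3 := stage_lt n
  have h4 := le_stage n
  have h5 : a J < a (stage n + 1) := by omega
  have h6 : a (stage n) < a (J + 1) := by omega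
  have h7 := a_strictMono.lt_iff_lt.mp h5
  have h8 := a_strictMono.lt_iff_lt.mp h6
  omega

lemma stage_mono : Monotone stage := by
  intro n k h
  by_contra hcon
  push Not at hcon
  have h1 := stage_lt k
  have h2 := le_stage n
  have h3 : a (stage k + 1) ≤ a (stage n) := a_strictMono.monotone hcon
  omega

lemma stage_ge {n J : ℕ} (h : a J ≤ n) : J ≤ stage n := by
  by_contra hcon
  push Not at hcon
  have h1 := stage_lt n
  have h3 : a (stage n + 1) ≤ a J := a_strictMono.monotone hcon
  omega

/-- the basic sequence -/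
def Q (n : ℕ) : ℕ := q (stage n)

lemma Q_mono : Monotone Q := fun _ _ h => q_mono (stage_mono h)

lemma tendsto_stage : Tendsto stage atTop atTop :=
  tendsto_atTop.mpr fun J => (eventually_ge_atTop (a J)).mono fun _ h => stage_ge h

lemma tendsto_Q : Tendsto Q atTop atTop := by
  apply tendsto_atTop_mono (f := stage) (fun n => ?_) tendsto_stage
  have := succ_le_q (stage n)
  unfold Q
  omega

variable (en : ℕ → Prop)

/-- position `i` is active in stage `J` -/
def act (J i : ℕ) : Prop :=
  i % q J / w J < J ∧ i % q J % w J < (L (i % q J / w J)).length ∧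
    en (L (i % q J / w J)).length ∧ i % q J ^ (L (i % q J / w J)).length = i % q J

open Classical in
/-- the digits of stage `J` -/
noncomputable def e (J i : ℕ) : ℕ :=
  if act en J i then (L (i % q J / w J)).getD (i % q J % w J) 0 else q J - 1

/-- the digits -/
noncomputable def E (n : ℕ) : ℕ := e en (stage n) n

lemma e_lt (J i : ℕ) : e en J i < q J := by
  unfold e
  split_ifs with h
  · obtain ⟨h1, h2, -, -⟩ := h
    have := mem_lt h1 (List.getD_eq_getElem (L (i % q J / w J)) 0 h2 ▸ List.getElem_mem h2)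
    omega
  · have := q_pos J
    omega

lemma E_lt (n : ℕ) : E en n < Q n := e_lt en _ _

/-- the block `B` occurs at position `i` -/
def occ {k : ℕ} (E : ℕ → ℕ) (B : Fin k → ℕ) (i : ℕ) : Prop := ∀ t : Fin k, E (i + t) = B t

instance {k : ℕ} (E : ℕ → ℕ) (B : Fin k → ℕ) : DecidablePred (occ E B) := fun i => by
  unfold occ; infer_instance

/-- index of the block `B` -/
def idx {k : ℕ} (B : Fin k → ℕ) : ℕ := Encodable.encode (List.ofFn B)

lemma L_idx {k : ℕ} (B : Fin k → ℕ) : L (idx B) = List.ofFn B := Denumerable.ofNat_encode _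

lemma B_lt {k : ℕ} {B : Fin k → ℕ} {J : ℕ} (hJ : idx B < J) (t : Fin k) : B t + 1 < q J := by
  apply mem_lt hJ
  rw [L_idx]
  exact List.mem_ofFn.mpr ⟨t, rfl⟩

lemma active_of_eq {k : ℕ} {B : Fin k → ℕ} {J i : ℕ} (hJ : idx B < J) (t : Fin k)
    (h : e en J i = B t) : act en J i ∧ (L (i % q J / w J)).getD (i % q J % w J) 0 = B t := by
  by_cases hact : act en J i
  · rw [e, if_pos hact] at h
    exact ⟨hact, h⟩
  · rw [e, if_neg hact] at h
    have := B_lt hJ t
    omega

/-- the next position after an active one lies in the same slot -/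
lemma next_pos {J i : ℕ} (h : i % q J / w J < J) (h2 : i % q J % w J + 1 < w J) :
    (i + 1) % q J = i % q J + 1 ∧ (i + 1) % q J / w J = i % q J / w J ∧
      (i + 1) % q J % w J = i % q J % w J + 1 := by
  have hw := w_pos J
  set r := i % q J with hr
  have hr1 : r = w J * (r / w J) + r % w J := (Nat.div_add_mod r (w J)).symm
  have hlt : r + 1 < q J := by
    have h3 : w J * (r / w J) + w J ≤ w J * J := by
      calc w J * (r / w J) + w J = w J * (r / w J + 1) := by ring
        _ ≤ w J * J := Nat.mul_le_mul_left _ h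
    have h4 : w J * J ≤ q J := Nat.mul_le_mul_left _ (by omega)
    omega
  have e1 : (i + 1) % q J = r + 1 := by
    rw [Nat.add_mod, ← hr, Nat.mod_eq_of_lt (show 1 < q J by omega), Nat.mod_eq_of_lt hlt]
  have e2 : (r + 1) / w J = r / w J := by
    rw [hr1, add_assoc, Nat.mul_add_div hw, Nat.mul_add_div hw, Nat.div_eq_of_lt h2,
      Nat.div_eq_of_lt (Nat.mod_lt _ hw)]
  have e3 : (r + 1) % w J = r % w J + 1 := by
    conv_lhs => rw [hr1]
    rw [add_assoc, Nat.mul_add_mod, Nat.mod_eq_of_lt h2]
  rw [e1]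
  exact ⟨rfl, e2, e3⟩

lemma stage_succ {J i : ℕ} (_h1 : a J ≤ i) (h2 : i < a (J + 1)) (h3 : (i + 1) % q J ≠ 0) :
    i + 1 < a (J + 1) := by
  rcases Nat.eq_or_lt_of_le h2 with h | h
  · exfalso
    apply h3
    rw [show i + 1 = a (J + 1) from h]
    exact Nat.mod_eq_zero_of_dvd (q_dvd_a J)
  · exact h

/-- analysis of an occurrence -/
lemma occ_analysis {k : ℕ} {B : Fin k → ℕ} {J i : ℕ} (hJ : idx B < J) (h1 : a J ≤ i)
    (h2 : i < a (J + 1)) (hocc : occ (E en) B i) (t : ℕ) (ht : t < k) :
    i + t < a (J + 1) ∧ act en J (i + t) ∧ (i + t) % q J / w J = i % q J / w J ∧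
      (i + t) % q J % w J = i % q J % w J + t ∧
      (L (i % q J / w J)).getD (i % q J % w J + t) 0 = B ⟨t, ht⟩ := by
  induction t with
  | zero =>
    have h3 := hocc ⟨0, ht⟩
    rw [E, stage_eq (by simpa using h1) (by simpa using h2)] at h3
    obtain ⟨h4, h5⟩ := active_of_eq en hJ _ h3
    simp only [Nat.add_zero] at h4 h5 ⊢
    exact ⟨h2, h4, trivial, trivial, h5⟩
  | succ t ih =>
    obtain ⟨i1, i2, i3, i4, i5⟩ := ih (by omega)
    have hlen : (i + t) % q J % w J + 1 < w J := by
      have := i2.2.1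
      have := length_lt_w i2.1
      omega
    obtain ⟨n1, n2, n3⟩ := next_pos i2.1 hlen
    have hst := stage_succ (J := J) (i := i + t) (by omega) i1 (by rw [n1]; omega)
    have h3 := hocc ⟨t + 1, ht⟩
    rw [E, stage_eq (J := J) (by simp; omega) (by simp; omega)] at h3
    obtain ⟨h4, h5⟩ := active_of_eq en hJ _ h3
    simp only at h4 h5
    rw [← add_assoc] at h4 h5 ⊢
    rw [n2, n3, i3, i4] at h5
    exact ⟨hst, h4, by rw [n2, i3], by rw [n3, i4]; ring, by rw [← h5]; rfl⟩

/-- the main positions of the block `B` in stage `J` -/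
def mainPos {k : ℕ} (B : Fin k → ℕ) (J i : ℕ) : Prop := i % q J ^ k = w J * idx B

/-- the exceptional positions -/
def extraPos (k J i : ℕ) : Prop :=
  ∃ s < J, ∃ off < (L s).length, i % q J ^ (k + 1) = w J * s + off

lemma mod_pow_mod {Q r i : ℕ} {k l : ℕ} (hkl : k ≤ l) (h : i % Q ^ l = r) (hr : r < Q ^ k) :
    i % Q ^ k = r := by
  have : Q ^ k ∣ Q ^ l := pow_dvd_pow _ hkl
  rw [← Nat.mod_mod_of_dvd i this, h, Nat.mod_eq_of_lt hr]

lemma occ_imp {k : ℕ} (hk : 0 < k) {B : Fin k → ℕ} {J i : ℕ} (hJ : idx B < J) (h1 : a J ≤ i)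
    (h2 : i < a (J + 1)) (hocc : occ (E en) B i) :
    (mainPos B J i ∧ en k) ∨ extraPos k J i := by
  obtain ⟨-, b2, b3, b4, -⟩ := occ_analysis en hJ h1 h2 hocc 0 hk
  obtain ⟨-, c2, c3, c4, -⟩ := occ_analysis en hJ h1 h2 hocc (k - 1) (by omega)
  have hq := q_pos J
  have hw := w_pos J
  simp only [Nat.add_zero] at b2
  set s := i % q J / w J with hs
  set off := i % q J % w J with hoff
  have hr1 : i % q J = w J * s + off := (Nat.div_add_mod _ _).symm
  have hlen : off + k ≤ (L s).length := by
    have := c2.2.1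
    rw [c3, c4] at this
    omega
  have hact := b2
  obtain ⟨g1, g2, g3, g4⟩ := hact
  rw [← hs] at g1 g3 g4
  rcases Nat.lt_or_ge k (L s).length with hlt | hge
  · right
    refine ⟨s, g1, off, by omega, ?_⟩
    rw [hr1] at g4
    refine mod_pow_mod (l := (L s).length) hlt g4 ?_
    calc w J * s + off < q J := by rw [← hr1]; exact Nat.mod_lt _ hq
      _ = q J ^ 1 := (pow_one _).symm
      _ ≤ q J ^ (k + 1) := Nat.pow_le_pow_right hq (by omega)
  · left
    have hk' : (L s).length = k := by omega
    have hoff0 : off = 0 := by omega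
    have hLs : L s = List.ofFn B := by
      apply List.ext_getElem
      · rw [hk', List.length_ofFn]
      · intro t ht1 ht2
        have ht : t < k := by rw [← hk']; exact ht1
        obtain ⟨-, -, -, -, d5⟩ := occ_analysis en hJ h1 h2 hocc t ht
        rw [← hs, ← hoff, hoff0, Nat.zero_add, List.getD_eq_getElem _ _ ht1] at d5
        rw [d5, List.getElem_ofFn]
    have hsB : s = idx B := by
      rw [idx, ← hLs]
      exact (Denumerable.encode_ofNat s).symm
    refine ⟨?_, by rw [← hk']; exact g3⟩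
    rw [mainPos, ← hsB]
    rw [hk', hr1, hoff0, Nat.add_zero] at g4
    exact g4

lemma occ_of_main {k : ℕ} (hk : 0 < k) {B : Fin k → ℕ} {J i : ℕ} (hJ : idx B < J) (h1 : a J ≤ i)
    (h2 : i < a (J + 1)) (hen : en k) (hm : mainPos B J i) : occ (E en) B i := by
  have hq := q_pos J
  have hw := w_pos J
  have hlen : (L (idx B)).length = k := by rw [L_idx, List.length_ofFn]
  have hkw : k < w J := by rw [← hlen]; exact length_lt_w hJ
  -- residues of `i + t`
  have hbig : ∀ t, t < w J → w J * idx B + t < q J := by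
    intro t ht
    calc w J * idx B + t < w J * (idx B + 1) := by rw [mul_add, mul_one]; omega
      _ ≤ w J * (J + 1) := Nat.mul_le_mul_left _ (by omega)
      _ = q J := rfl
  have hr : ∀ t, t ≤ k → (i + t) % q J = w J * idx B + t := by
    intro t ht
    have h3 : i % q J = w J * idx B := by
      have h4 := mod_pow_mod (Q := q J) (k := 1) (l := k) hk hm
        (by rw [pow_one]; exact hbig 0 hw)
      rwa [pow_one] at h4
    rw [Nat.add_mod, h3, Nat.mod_eq_of_lt (show t < q J by have := hbig t (by omega); omega),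
      Nat.mod_eq_of_lt (hbig t (by omega))]
  have hrk : ∀ t, t ≤ k → (i + t) % q J ^ k = w J * idx B + t := by
    intro t ht
    have hqk : q J ≤ q J ^ k := by
      calc q J = q J ^ 1 := (pow_one _).symm
        _ ≤ q J ^ k := Nat.pow_le_pow_right hq hk
    have h5 := hbig t (by omega)
    rw [Nat.add_mod, hm, Nat.mod_eq_of_lt (show t < q J ^ k by omega),
      Nat.mod_eq_of_lt (by omega)]
  have hst : ∀ t, t < k → i + t < a (J + 1) := by
    intro t ht
    induction t with
    | zero => simpa using h2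
    | succ t ih =>
      have h3 := ih (by omega)
      have h4 := stage_succ (J := J) (i := i + t) (by omega) h3
        (by rw [add_assoc, hr _ (by omega)]; omega)
      rwa [add_assoc] at h4
  intro t
  have ht := t.2
  rw [E, stage_eq (J := J) (by omega) (hst t ht), e]
  have hs : (i + t) % q J / w J = idx B := by
    rw [hr t ht.le, Nat.mul_add_div hw, Nat.div_eq_of_lt (by omega), Nat.add_zero]
  have hoff : (i + t) % q J % w J = t := by
    rw [hr t ht.le, Nat.mul_add_mod, Nat.mod_eq_of_lt (by omega)]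
  have hact : act en J (i + t) := by
    rw [act, hs, hoff, hlen, hrk t ht.le, hr t ht.le]
    exact ⟨hJ, ht, hen, rfl⟩
  rw [if_pos hact, hs, hoff, List.getD_eq_getElem _ _ (by rw [hlen]; exact ht)]
  have : (L (idx B))[(t : ℕ)]'(by rw [hlen]; exact ht) = (List.ofFn B)[(t : ℕ)]'(by
      rw [List.length_ofFn]; exact ht) := by
    congr 1
    exact L_idx B
  rw [this, List.getElem_ofFn]

/-- main positions are multiples of `k` -/
lemma main_dvd {k : ℕ} (hk : 0 < k) {B : Fin k → ℕ} {J i : ℕ} (hJ : idx B < J)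
    (hm : mainPos B J i) : k ∣ i := by
  have hlen : (L (idx B)).length = k := by rw [L_idx, List.length_ofFn]
  have hkw : k ∣ w J := by
    rw [← hlen]
    exact length_dvd_w hJ (by omega)
  have hkq : k ∣ q J ^ k := (hkw.mul_right _).trans (dvd_pow_self _ hk.ne')
  have h1 : k ∣ i % q J ^ k := by
    rw [hm]
    exact hkw.mul_right _
  have := Nat.div_add_mod i (q J ^ k)
  rw [← this]
  exact dvd_add (hkq.mul_right _) h1

end Q263.CS
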