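import Mathlib
import Pool.Agent.Q263.CS.Base

/-! Counting occurrences. -/

set_option autoImplicit false

open Finset Filter Topology

namespace Q263.CS

/-- the weight `1/(q_i ⋯ q_{i+k-1})` -/
noncomputable def wt (Q : ℕ → ℕ) (k i : ℕ) : ℝ := (∏ t ∈ range k, (Q (i + t) : ℝ))⁻¹

/-- `Q_n^{(k)}` -/
noncomputable def Qs (Q : ℕ → ℕ) (k n : ℕ) : ℝ := ∑ j ∈ Icc 1 n, wt Q k j

lemma count_bound (M ρ x y : ℕ) (hM : 0 < M) (hxy : x ≤ y) :
    |(((Ico x y).filter fun i => i % M = ρ % M).card : ℝ) - ((y : ℝ) - x) / M| ≤ 1 := by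
  have h := Nat.Ico_filter_modEq_card x y hM ρ
  have hMr : (0 : ℚ) < M := by exact_mod_cast hM
  have e : ((Ico x y).filter fun i => i % M = ρ % M) = (Ico x y).filter (fun i => i ≡ ρ [MOD M]) := by
    rfl
  rw [e]
  have h1 : ((#((Ico x y).filter (fun i => i ≡ ρ [MOD M])) : ℤ) : ℚ) =
      max (((⌈((y : ℚ) - ρ) / M⌉ - ⌈((x : ℚ) - ρ) / M⌉ : ℤ) : ℚ)) 0 := by
    rw [h]; push_cast; rfl
  have hc1 := Int.le_ceil (((y : ℚ) - ρ) / M)
  have hc2 := Int.ceil_lt_add_one (((y : ℚ) - ρ) / M)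
  have hc3 := Int.le_ceil (((x : ℚ) - ρ) / M)
  have hc4 := Int.ceil_lt_add_one (((x : ℚ) - ρ) / M)
  have hd : ((y : ℚ) - ρ) / M - ((x : ℚ) - ρ) / M = ((y : ℚ) - x) / M := by ring
  have hd0 : 0 ≤ ((y : ℚ) - x) / M := by
    apply div_nonneg _ hMr.le
    have : (x : ℚ) ≤ y := by exact_mod_cast hxy
    linarith
  have hq : |((#((Ico x y).filter (fun i => i ≡ ρ [MOD M])) : ℕ) : ℚ) - ((y : ℚ) - x) / M| ≤ 1 := by
    have h2 : ((#((Ico x y).filter (fun i => i ≡ ρ [MOD M])) : ℕ) : ℚ) =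
        max (((⌈((y : ℚ) - ρ) / M⌉ - ⌈((x : ℚ) - ρ) / M⌉ : ℤ) : ℚ)) 0 := by
      rw [← h1]; push_cast; rfl
    rw [h2, abs_le]
    push_cast
    constructor
    · have := le_max_left ((⌈((y : ℚ) - ρ) / M⌉ : ℚ) - ⌈((x : ℚ) - ρ) / M⌉) 0
      linarith
    · rcases max_choice ((⌈((y : ℚ) - ρ) / M⌉ : ℚ) - ⌈((x : ℚ) - ρ) / M⌉) 0 with h3 | h3
      · rw [h3]; linarith
      · rw [h3]; linarith
  have h5 := (Rat.cast_le (K := ℝ)).mpr hq
  rw [Rat.cast_abs] at h5
  push_cast at h5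
  exact h5

/-! ## The weights in a stage -/

lemma Q_stage {J i : ℕ} (h1 : a J ≤ i) (h2 : i < a (J + 1)) : Q i = q J := by
  rw [Q, stage_eq h1 h2]

lemma Q_ge {J i : ℕ} (h1 : a J ≤ i) : q J ≤ Q i := q_mono (stage_ge h1)

lemma wt_nonneg (Q : ℕ → ℕ) (k i : ℕ) : 0 ≤ wt Q k i := by
  unfold wt; positivity

lemma wt_le {J i : ℕ} (k : ℕ) (h1 : a J ≤ i) : wt Q k i ≤ ((q J : ℝ) ^ k)⁻¹ := by
  have hq : (0 : ℝ) < q J := by exact_mod_cast q_pos J
  unfold wt
  apply inv_anti₀ (by positivity)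
  calc (q J : ℝ) ^ k = ∏ _t ∈ range k, (q J : ℝ) := by simp
    _ ≤ ∏ t ∈ range k, (Q (i + t) : ℝ) := by
        apply Finset.prod_le_prod
        · intro t _; exact hq.le
        · intro t _
          exact_mod_cast Q_ge (by omega)

lemma wt_eq {J i : ℕ} (k : ℕ) (h1 : a J ≤ i) (h2 : i + k ≤ a (J + 1)) :
    wt Q k i = ((q J : ℝ) ^ k)⁻¹ := by
  unfold wt
  congr 1
  calc ∏ t ∈ range k, (Q (i + t) : ℝ) = ∏ _t ∈ range k, (q J : ℝ) := by
        refine Finset.prod_congr rfl fun t ht => ?_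
        rw [Finset.mem_range] at ht
        rw [Q_stage (J := J) (by omega) (by omega)]
    _ = (q J : ℝ) ^ k := by simp

lemma wt_le_one (k i : ℕ) : wt Q k i ≤ 1 := by
  have h := wt_le (J := 0) (i := i) k (by simp [a])
  refine h.trans ?_
  apply inv_le_one_of_one_le₀
  apply one_le_pow₀
  exact_mod_cast q_pos 0

/-- the total weight of an initial part of a stage -/
lemma sum_wt {J b : ℕ} (k : ℕ) (h1 : a J ≤ b) (h2 : b ≤ a (J + 1)) :
    |∑ i ∈ Ico (a J) b, wt Q k i - ((b : ℝ) - a J) / (q J : ℝ) ^ k| ≤ k := by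
  have hq : (1 : ℝ) ≤ q J := by exact_mod_cast q_pos J
  have hqk : (1 : ℝ) ≤ (q J : ℝ) ^ k := one_le_pow₀ hq
  have hinv : ((q J : ℝ) ^ k)⁻¹ ≤ 1 := inv_le_one_of_one_le₀ hqk
  have hinv0 : 0 ≤ ((q J : ℝ) ^ k)⁻¹ := by positivity
  have hup : ∑ i ∈ Ico (a J) b, wt Q k i ≤ ((b : ℝ) - a J) / (q J : ℝ) ^ k := by
    calc ∑ i ∈ Ico (a J) b, wt Q k i ≤ ∑ _i ∈ Ico (a J) b, ((q J : ℝ) ^ k)⁻¹ := by
          apply Finset.sum_le_sum
          intro i hi
          rw [Finset.mem_Ico] at hi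
          exact wt_le k hi.1
      _ = ((b : ℝ) - a J) / (q J : ℝ) ^ k := by
          rw [Finset.sum_const, Nat.card_Ico, nsmul_eq_mul, Nat.cast_sub h1]
          rfl
  have hlow : ((b : ℝ) - a J) / (q J : ℝ) ^ k - k ≤ ∑ i ∈ Ico (a J) b, wt Q k i := by
    calc ((b : ℝ) - a J) / (q J : ℝ) ^ k - k
        ≤ ((b : ℝ) - a J) / (q J : ℝ) ^ k - k * ((q J : ℝ) ^ k)⁻¹ := by
          have : (k : ℝ) * ((q J : ℝ) ^ k)⁻¹ ≤ k * 1 := by gcongr
          linarith
      _ = ((b : ℝ) - a J - k) * ((q J : ℝ) ^ k)⁻¹ := by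
          rw [div_eq_mul_inv]; ring
      _ ≤ ∑ i ∈ (Ico (a J) b).filter (fun i => i + k ≤ a (J + 1)), wt Q k i := by
          have e : ∑ i ∈ (Ico (a J) b).filter (fun i => i + k ≤ a (J + 1)), wt Q k i =
              ∑ _i ∈ (Ico (a J) b).filter (fun i => i + k ≤ a (J + 1)), ((q J : ℝ) ^ k)⁻¹ := by
            refine Finset.sum_congr rfl fun i hi => ?_
            rw [Finset.mem_filter, Finset.mem_Ico] at hi
            exact wt_eq k hi.1.1 hi.2
          rw [e, Finset.sum_const, nsmul_eq_mul]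
          apply mul_le_mul_of_nonneg_right _ hinv0
          have hsub : Ico (a J) (b - k) ⊆ (Ico (a J) b).filter (fun i => i + k ≤ a (J + 1)) := by
            intro i hi
            rw [Finset.mem_Ico] at hi
            rw [Finset.mem_filter, Finset.mem_Ico]
            omega
          have hcard := Finset.card_le_card hsub
          rw [Nat.card_Ico] at hcard
          have : b ≤ #((Ico (a J) b).filter (fun i => i + k ≤ a (J + 1))) + a J + k := by omega
          have : (b : ℝ) ≤ #((Ico (a J) b).filter (fun i => i + k ≤ a (J + 1))) + a J + k := by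
            exact_mod_cast this
          linarith
      _ ≤ ∑ i ∈ Ico (a J) b, wt Q k i := by
          apply Finset.sum_le_sum_of_subset_of_nonneg (Finset.filter_subset _ _)
          intro i _ _
          exact wt_nonneg _ _ _
  rw [abs_le]
  constructor <;> linarith

open Classical in
/-- main positions in a stage -/
lemma main_stage {k : ℕ} (hk : 0 < k) {B : Fin k → ℕ} {J b : ℕ} (hJ : idx B < J)
    (h1 : a J ≤ b) (h2 : b ≤ a (J + 1)) :
    |(((Ico (a J) b).filter fun i => mainPos B J i).card : ℝ) - ∑ i ∈ Ico (a J) b, wt Q k i| ≤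
      k + 1 := by
  have hq := q_pos J
  have hqk : 0 < q J ^ k := by positivity
  have hlt : w J * idx B < q J ^ k := by
    calc w J * idx B < w J * (J + 1) := Nat.mul_lt_mul_of_pos_left (by omega) (w_pos J)
      _ = q J ^ 1 := (pow_one _).symm
      _ ≤ q J ^ k := Nat.pow_le_pow_right hq hk
  have h3 := count_bound (q J ^ k) (w J * idx B) (a J) b hqk h1
  have e : ((Ico (a J) b).filter fun i => mainPos B J i) =
      (Ico (a J) b).filter fun i => i % q J ^ k = (w J * idx B) % q J ^ k := by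
    apply Finset.filter_congr
    intro i _
    rw [mainPos, Nat.mod_eq_of_lt hlt]
  rw [e]
  have h4 := sum_wt (J := J) (b := b) k h1 h2
  push_cast at h3
  rw [abs_le] at h3 h4 ⊢
  constructor <;> linarith [h3.1, h3.2, h4.1, h4.2]

open Classical in
/-- exceptional positions in a stage -/
lemma extra_stage (k : ℕ) {J b : ℕ} (hJ : 0 < J) (h1 : a J ≤ b) (h2 : b ≤ a (J + 1)) :
    (((Ico (a J) b).filter fun i => extraPos k J i).card : ℝ) ≤
      Lam J + k + (1 / J) * ∑ i ∈ Ico (a J) b, wt Q k i := by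
  have hq := q_pos J
  have hqr : (0 : ℝ) < q J := by exact_mod_cast hq
  have hJr : (0 : ℝ) < J := by exact_mod_cast hJ
  have hqk : 0 < q J ^ (k + 1) := by positivity
  have hba : (0 : ℝ) ≤ (b : ℝ) - a J := by
    have : (a J : ℝ) ≤ b := by exact_mod_cast h1
    linarith
  have hsub : ((Ico (a J) b).filter fun i => extraPos k J i) ⊆
      (range J).biUnion fun s => (range (L s).length).biUnion fun off =>
        (Ico (a J) b).filter fun i => i % q J ^ (k + 1) = (w J * s + off) % q J ^ (k + 1) := by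
    intro i hi
    rw [Finset.mem_filter] at hi
    obtain ⟨hi1, s, hs, off, hoff, hi2⟩ := hi
    rw [Finset.mem_biUnion]
    refine ⟨s, Finset.mem_range.mpr hs, ?_⟩
    rw [Finset.mem_biUnion]
    refine ⟨off, Finset.mem_range.mpr hoff, ?_⟩
    rw [Finset.mem_filter]
    refine ⟨hi1, ?_⟩
    rw [← hi2, Nat.mod_mod]
  have hcard : (((Ico (a J) b).filter fun i => extraPos k J i).card : ℝ) ≤
      ∑ s ∈ range J, ∑ _off ∈ range (L s).length, (((b : ℝ) - a J) / (q J : ℝ) ^ (k + 1) + 1) := by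
    have g1 := (Finset.card_le_card hsub).trans Finset.card_biUnion_le
    have g2 : (((Ico (a J) b).filter fun i => extraPos k J i).card : ℝ) ≤
      ∑ s ∈ range J, (((range (L s).length).biUnion fun off =>
        (Ico (a J) b).filter fun i =>
          i % q J ^ (k + 1) = (w J * s + off) % q J ^ (k + 1)).card : ℝ) := by exact_mod_cast g1
    refine g2.trans ?_
    apply Finset.sum_le_sum
    intro s _
    have g3 := Finset.card_biUnion_le (s := range (L s).length) (t := fun off =>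
        (Ico (a J) b).filter fun i => i % q J ^ (k + 1) = (w J * s + off) % q J ^ (k + 1))
    have g4 : (((range (L s).length).biUnion fun off =>
        (Ico (a J) b).filter fun i =>
          i % q J ^ (k + 1) = (w J * s + off) % q J ^ (k + 1)).card : ℝ) ≤
        ∑ off ∈ range (L s).length, (((Ico (a J) b).filter fun i =>
          i % q J ^ (k + 1) = (w J * s + off) % q J ^ (k + 1)).card : ℝ) := by exact_mod_cast g3
    refine g4.trans ?_
    apply Finset.sum_le_sum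
    intro off _
    have g5 := count_bound (q J ^ (k + 1)) (w J * s + off) (a J) b hqk h1
    push_cast at g5
    have := (abs_le.mp g5).2
    linarith
  refine hcard.trans ?_
  simp only [Finset.sum_const, Finset.card_range, nsmul_eq_mul]
  rw [← Finset.sum_mul]
  have hLam : (∑ s ∈ range J, ((L s).length : ℝ)) = Lam J := by
    rw [Lam]; push_cast; rfl
  rw [hLam]
  -- `Lam J / q J ≤ 1 / J`
  have h5 : (Lam J : ℝ) * (((b : ℝ) - a J) / (q J : ℝ) ^ (k + 1)) ≤
      (1 / J) * (((b : ℝ) - a J) / (q J : ℝ) ^ k) := by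
    have h6 : (J : ℝ) * Lam J ≤ q J := by exact_mod_cast J_Lam_le J
    have h7 : (Lam J : ℝ) * (((b : ℝ) - a J) / (q J : ℝ) ^ (k + 1)) =
        (Lam J / q J) * (((b : ℝ) - a J) / (q J : ℝ) ^ k) := by
      rw [pow_succ]; field_simp
    rw [h7]
    apply mul_le_mul_of_nonneg_right
    · rw [div_le_div_iff₀ hqr hJr]
      linarith
    · positivity
  have h8 := (abs_le.mp (sum_wt (J := J) (b := b) k h1 h2)).1
  have h9 : (1 / (J : ℝ)) * (((b : ℝ) - a J) / (q J : ℝ) ^ k) ≤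
      (1 / J) * (∑ i ∈ Ico (a J) b, wt Q k i + k) := by
    apply mul_le_mul_of_nonneg_left _ (by positivity)
    linarith
  have h10 : (1 / (J : ℝ)) * k ≤ k := by
    have : 1 / (J : ℝ) ≤ 1 := by
      rw [div_le_one hJr]; exact_mod_cast hJ
    have hk0 : (0 : ℝ) ≤ k := by positivity
    nlinarith
  have h11 : (Lam J : ℝ) * (((b : ℝ) - a J) / (q J : ℝ) ^ (k + 1) + 1) =
      Lam J * (((b : ℝ) - a J) / (q J : ℝ) ^ (k + 1)) + Lam J := by ring
  rw [h11]
  have h12 : (1 / (J : ℝ)) * (∑ i ∈ Ico (a J) b, wt Q k i + k) =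
      (1 / J) * ∑ i ∈ Ico (a J) b, wt Q k i + (1 / J) * k := by ring
  linarith

/-- the weight accumulated before stage `J` is large -/
lemma weight_large (k : ℕ) {J : ℕ} (hkJ : k ≤ J) (hJ : 0 < J) {n : ℕ} (hn : a J ≤ n) :
    (J : ℝ) * S J ≤ ∑ i ∈ Ico 1 n, wt Q k i + 1 := by
  obtain ⟨j, rfl⟩ : ∃ j, J = j + 1 := ⟨J - 1, by omega⟩
  have h1 : a j ≤ a (j + 1) := (a_strictMono (by omega)).le
  have h2 := (abs_le.mp (sum_wt (J := j) (b := a (j + 1)) k h1 le_rfl)).1
  have hq : (1 : ℝ) ≤ q j := by exact_mod_cast q_pos j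
  have hqk : (0 : ℝ) < (q j : ℝ) ^ k := by positivity
  have h3 : (((j + 1 : ℕ) : ℝ) * S (j + 1) + k) ≤ ((a (j + 1) : ℝ) - a j) / (q j : ℝ) ^ k := by
    rw [le_div_iff₀ hqk]
    have h4 : (((j + 1) * S (j + 1) + k) * q j ^ k + a j : ℕ) ≤ a (j + 1) := by
      rw [a]
      have h5 : q j ^ k ≤ q j ^ (j + 2) := Nat.pow_le_pow_right (q_pos j) (by omega)
      have h6 : 1 ≤ q j ^ (j + 2) := Nat.one_le_pow _ _ (q_pos j)
      calc ((j + 1) * S (j + 1) + k) * q j ^ k + a j
          ≤ ((j + 1) * S (j + 1) + (j + 2)) * q j ^ (j + 2) + a j * q j ^ (j + 2) := by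
            have h7 : ((j + 1) * S (j + 1) + k) * q j ^ k ≤
                ((j + 1) * S (j + 1) + (j + 2)) * q j ^ (j + 2) :=
              Nat.mul_le_mul (by omega) h5
            have h8 : a j ≤ a j * q j ^ (j + 2) := Nat.le_mul_of_pos_right _ h6
            omega
        _ = q j ^ (j + 2) * ((j + 1) * S (j + 1) + j + 2 + a j) := by ring
    have h9 : (((j + 1 : ℕ) : ℝ) * S (j + 1) + k) * (q j : ℝ) ^ k + a j ≤ a (j + 1) := by
      exact_mod_cast h4
    linarith
  have h4 : ∑ i ∈ Ico (a j) (a (j + 1)), wt Q k i ≤ ∑ i ∈ Ico 1 n, wt Q k i + 1 := by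
    have h5 : Ico (a j) (a (j + 1)) ⊆ Ico 1 n ∪ {0} := by
      intro i hi
      rw [Finset.mem_Ico] at hi
      rw [Finset.mem_union, Finset.mem_Ico, Finset.mem_singleton]
      omega
    have h6 : ∑ i ∈ Ico (a j) (a (j + 1)), wt Q k i ≤ ∑ i ∈ Ico 1 n ∪ {0}, wt Q k i := by
      apply Finset.sum_le_sum_of_subset_of_nonneg h5
      intro i _ _
      exact wt_nonneg _ _ _
    have h7 : ∑ i ∈ Ico 1 n ∪ {0}, wt Q k i = ∑ i ∈ Ico 1 n, wt Q k i + wt Q k 0 := by
      rw [Finset.sum_union (by simp), Finset.sum_singleton]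
    have h8 := wt_le_one k 0
    linarith
  linarith

end Q263.CS
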