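import Mathlib
import Pool.Agent.Q263.CS.Count

/-! The limit of the relative frequencies. -/

set_option autoImplicit false

open Finset Filter Topology

namespace Q263.CS

/-- partial sums of the weights -/
noncomputable def V (k n : ℕ) : ℝ := ∑ i ∈ Ico 1 n, wt Q k i

lemma V_mono (k : ℕ) : Monotone (V k) := by
  intro n l h
  apply Finset.sum_le_sum_of_subset_of_nonneg
  · exact Finset.Ico_subset_Ico_right h
  · intro i _ _; exact wt_nonneg _ _ _

lemma V_nonneg (k n : ℕ) : 0 ≤ V k n := Finset.sum_nonneg fun _ _ => wt_nonneg _ _ _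

lemma Qs_eq (k n : ℕ) : Qs Q k n = V k (n + 1) := by
  unfold Qs V
  congr 1

lemma S_ge (J : ℕ) : 1 ≤ S J := by
  unfold S
  have : D J ≤ ∑ i ∈ range (J + 1), D i :=
    Finset.single_le_sum (f := D) (fun _ _ => Nat.zero_le _) (Finset.mem_range.mpr (by omega))
  unfold D at this ⊢
  omega

lemma D_le_S (J : ℕ) : D J ≤ S J := by
  unfold S
  exact Finset.single_le_sum (f := D) (fun _ _ => Nat.zero_le _) (Finset.mem_range.mpr (by omega))

lemma S_succ (J : ℕ) : S (J + 1) = S J + D (J + 1) := by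
  unfold S
  rw [Finset.sum_range_succ]

lemma J_S_le (k : ℕ) {J n : ℕ} (hkJ : k ≤ J) (hJ : 0 < J) (hn : a J ≤ n) :
    (J : ℝ) * S J ≤ V k n + 1 := weight_large k hkJ hJ hn

lemma tendsto_V (k : ℕ) : Tendsto (V k) atTop atTop := by
  rw [tendsto_atTop]
  intro C
  obtain ⟨j, hj⟩ := exists_nat_gt (C + 1)
  set J := max (max j k) 1 with hJ
  have hjJ : j ≤ J := (le_max_left _ _).trans (le_max_left _ _)
  have hkJ : k ≤ J := (le_max_right _ _).trans (le_max_left _ _)
  have h1J : 1 ≤ J := le_max_right _ _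
  filter_upwards [eventually_ge_atTop (a J)] with n hn
  have h1 := J_S_le k hkJ h1J hn
  have h2 : (1 : ℝ) ≤ S J := by exact_mod_cast S_ge J
  have h3 : (j : ℝ) ≤ J := by exact_mod_cast hjJ
  have h4 : (0 : ℝ) ≤ J := by positivity
  nlinarith

lemma tendsto_Qs (k : ℕ) : Tendsto (fun n => Qs Q k n) atTop atTop := by
  simp_rw [Qs_eq]
  exact (tendsto_V k).comp (tendsto_add_atTop_nat 1)

theorem limit (k : ℕ) (u : ℕ → ℝ) (θ : ℝ) (J₀ : ℕ)
    (h : ∀ J, J₀ ≤ J → ∀ b, a J ≤ b → b ≤ a (J + 1) →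
      |∑ i ∈ Ico (a J) b, (u i - θ * wt Q k i)| ≤ D J + (1 / J) * ∑ i ∈ Ico (a J) b, wt Q k i) :
    Tendsto (fun n => (∑ i ∈ Icc 1 n, u i) / Qs Q k n) atTop (𝓝 θ) := by
  set R : ℕ → ℝ := fun n => ∑ i ∈ Ico 1 n, (u i - θ * wt Q k i) with hR
  -- the main claim
  have hclaim : ∀ J₁, J₀ ≤ J₁ → 1 ≤ J₁ → ∀ J, J₁ ≤ J → ∀ n, a J ≤ n → n ≤ a (J + 1) →
      |R n| ≤ |R (a J₁)| + S J + (1 / J₁) * V k n := by
    intro J₁ hJ₁ h1 J hJ
    have hJ₁r : (0 : ℝ) < J₁ := by exact_mod_cast h1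
    have hstep : ∀ J, J₁ ≤ J → ∀ n, a J ≤ n → n ≤ a (J + 1) →
        |R n| ≤ |R (a J)| + (D J + (1 / J₁) * ∑ i ∈ Ico (a J) n, wt Q k i) := by
      intro J hJ n hn1 hn2
      have ha1 : 1 ≤ a J := by
        have : J ≤ a J := a_strictMono.id_le J
        omega
      have e : R n = R (a J) + ∑ i ∈ Ico (a J) n, (u i - θ * wt Q k i) := by
        simp only [hR]
        rw [Finset.sum_Ico_consecutive _ ha1 hn1]
      rw [e]
      refine (abs_add_le _ _).trans ?_
      have h2 := h J (hJ₁.trans hJ) n hn1 hn2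
      have h3 : (1 / (J : ℝ)) * ∑ i ∈ Ico (a J) n, wt Q k i ≤
          (1 / J₁) * ∑ i ∈ Ico (a J) n, wt Q k i := by
        apply mul_le_mul_of_nonneg_right
        · apply one_div_le_one_div_of_le hJ₁r
          exact_mod_cast hJ
        · exact Finset.sum_nonneg fun _ _ => wt_nonneg _ _ _
      linarith
    have hVsum : ∀ J, 1 ≤ J → ∀ n, a J ≤ n →
        V k n = V k (a J) + ∑ i ∈ Ico (a J) n, wt Q k i := by
      intro J hJ n hn
      have ha1 : 1 ≤ a J := by
        have : J ≤ a J := a_strictMono.id_le J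
        omega
      unfold V
      rw [Finset.sum_Ico_consecutive _ ha1 hn]
    induction J, hJ using Nat.le_induction with
    | base =>
      intro n hn1 hn2
      have h2 := hstep J₁ le_rfl n hn1 hn2
      have h3 := hVsum J₁ h1 n hn1
      have h4 : (D J₁ : ℝ) ≤ S J₁ := by exact_mod_cast D_le_S J₁
      have h5 := V_nonneg k (a J₁)
      have h6 : (1 / (J₁ : ℝ)) * ∑ i ∈ Ico (a J₁) n, wt Q k i ≤ (1 / J₁) * V k n := by
        apply mul_le_mul_of_nonneg_left _ (by positivity)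
        linarith
      linarith
    | succ J hJ ih =>
      intro n hn1 hn2
      have h2 := hstep (J + 1) (by omega) n hn1 hn2
      have h3 := ih (a (J + 1)) (a_strictMono.monotone (by omega)) le_rfl
      have h4 := hVsum (J + 1) (by omega) n hn1
      have h5 : (S (J + 1) : ℝ) = S J + D (J + 1) := by exact_mod_cast S_succ J
      have h6 : (1 / (J₁ : ℝ)) * V k n =
          (1 / J₁) * V k (a (J + 1)) + (1 / J₁) * ∑ i ∈ Ico (a (J + 1)) n, wt Q k i := by
        rw [h4]; ring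
      linarith
  have hVt := tendsto_V k
  rw [Metric.tendsto_atTop]
  intro ε hε
  -- choose the stage
  obtain ⟨j, hj⟩ := exists_nat_gt (4 / ε)
  set J₁ := max (max (max j k) 1) J₀ with hJ₁
  have g1 : j ≤ J₁ := ((le_max_left _ _).trans (le_max_left _ _)).trans (le_max_left _ _)
  have g2 : k ≤ J₁ := ((le_max_right _ _).trans (le_max_left _ _)).trans (le_max_left _ _)
  have g3 : 1 ≤ J₁ := (le_max_right _ _).trans (le_max_left _ _)
  have g4 : J₀ ≤ J₁ := le_max_right _ _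
  have hJ₁r : (0 : ℝ) < J₁ := by exact_mod_cast g3
  have hinv : 1 / (J₁ : ℝ) < ε / 4 := by
    rw [div_lt_iff₀ hJ₁r]
    have : (j : ℝ) ≤ J₁ := by exact_mod_cast g1
    rw [div_lt_iff₀ hε] at hj
    nlinarith
  -- large `n`
  have hev := hVt.eventually_gt_atTop ((|R (a J₁)| + 1 / J₁) / (ε / 4) + 1)
  obtain ⟨n₀, hn₀⟩ := eventually_atTop.mp hev
  refine ⟨max n₀ (a J₁), fun n hn => ?_⟩
  have hn1 : n₀ ≤ n + 1 := by have := le_max_left n₀ (a J₁); omega
  have hn2 : a J₁ ≤ n + 1 := by have := le_max_right n₀ (a J₁); omega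
  have hV := hn₀ (n + 1) hn1
  set J := stage (n + 1) with hJdef
  have hJ1 : J₁ ≤ J := stage_ge hn2
  have hJ2 := le_stage (n + 1)
  have hJ3 := (stage_lt (n + 1)).le
  have hJr : (0 : ℝ) < J := by
    have : 0 < J := by omega
    exact_mod_cast this
  have hb := hclaim J₁ g4 g3 J hJ1 (n + 1) hJ2 hJ3
  have hS := J_S_le k (g2.trans hJ1) (by omega) hJ2
  have hS' : (S J : ℝ) ≤ (1 / J₁) * (V k (n + 1) + 1) := by
    have h5 : (S J : ℝ) ≤ (V k (n + 1) + 1) / J := by
      rw [le_div_iff₀ hJr]; linarith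
    have h6 : (V k (n + 1) + 1) / J ≤ (V k (n + 1) + 1) / J₁ := by
      apply div_le_div_of_nonneg_left _ hJ₁r
      · exact_mod_cast hJ1
      · have := V_nonneg k (n + 1); linarith
    calc (S J : ℝ) ≤ (V k (n + 1) + 1) / J := h5
      _ ≤ (V k (n + 1) + 1) / J₁ := h6
      _ = (1 / J₁) * (V k (n + 1) + 1) := by ring
  have hC0 : 0 ≤ (|R (a J₁)| + 1 / J₁) / (ε / 4) := by positivity
  have hVpos : 0 < V k (n + 1) := by linarith
  have hC : |R (a J₁)| + 1 / J₁ < (ε / 4) * V k (n + 1) := by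
    have h7 : (|R (a J₁)| + 1 / J₁) / (ε / 4) < V k (n + 1) := by linarith
    rw [div_lt_iff₀ (by positivity)] at h7
    linarith
  have hRb : |R (n + 1)| < ε * V k (n + 1) := by
    have h8 : (1 / (J₁ : ℝ)) * (V k (n + 1) + 1) = (1 / J₁) * V k (n + 1) + 1 / J₁ := by ring
    have h9 : (1 / (J₁ : ℝ)) * V k (n + 1) ≤ (ε / 4) * V k (n + 1) := by gcongr
    have h10 : 0 < (ε / 4) * V k (n + 1) := by positivity
    linarith
  have hRe : R (n + 1) = ∑ i ∈ Icc 1 n, u i - θ * V k (n + 1) := by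
    simp only [hR, V]
    rw [Finset.sum_sub_distrib, Finset.mul_sum]
    congr 1
  rw [Qs_eq, Real.dist_eq]
  have e : (∑ i ∈ Icc 1 n, u i) / V k (n + 1) - θ = R (n + 1) / V k (n + 1) := by
    rw [hRe]; field_simp
  rw [e, abs_div, abs_of_pos hVpos, div_lt_iff₀ hVpos]
  exact hRb

end Q263.CS
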