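import Mathlib
import Pool.Agent.Q263.CS.Limit

/-! The final frequencies, and the real number. -/

set_option autoImplicit false

open Finset Filter Topology

namespace Q263.CS

/-- number of occurrences of `B` at positions `1 ≤ i ≤ n` satisfying `p` -/
def cnt {k : ℕ} (E : ℕ → ℕ) (B : Fin k → ℕ) (p : ℕ → Prop) [DecidablePred p] (n : ℕ) : ℕ :=
  #((Icc 1 n).filter fun i => occ E B i ∧ p i)

variable (en : ℕ → Prop)

lemma ind_sum (s : Finset ℕ) (P : ℕ → Prop) [DecidablePred P] :
    ∑ i ∈ s, (if P i then (1 : ℝ) else 0) = (#(s.filter P) : ℝ) := by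
  rw [Finset.sum_boole]

/-- every block of enabled length has the right frequency -/
theorem freq_one {k : ℕ} (hk : 0 < k) (hen : en k) (B : Fin k → ℕ) :
    Tendsto (fun n => (cnt (E en) B (fun _ => True) n : ℝ) / Qs Q k n) atTop (𝓝 1) := by
  classical
  have h := limit k (fun i => if occ (E en) B i then (1 : ℝ) else 0) 1 (max k (idx B + 1)) ?_
  · refine h.congr fun n => ?_
    rw [ind_sum, cnt]
    simp
  · intro J hJ b h1 h2
    have hJB : idx B < J := by have := le_max_right k (idx B + 1); omega
    have hJk : k ≤ J := (le_max_left _ _).trans hJ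
    have hJ0 : 0 < J := by omega
    have hm := main_stage hk hJB h1 h2
    have hx := extra_stage k hJ0 h1 h2
    set M := (Ico (a J) b).filter fun i => mainPos B J i with hM
    set X := (Ico (a J) b).filter fun i => extraPos k J i with hX
    set O := (Ico (a J) b).filter fun i => occ (E en) B i with hO
    have hMO : M ⊆ O := by
      intro i hi
      rw [hM, Finset.mem_filter, Finset.mem_Ico] at hi
      rw [hO, Finset.mem_filter, Finset.mem_Ico]
      exact ⟨hi.1, occ_of_main en hk hJB hi.1.1 (by omega) hen hi.2⟩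
    have hOMX : O ⊆ M ∪ X := by
      intro i hi
      rw [hO, Finset.mem_filter, Finset.mem_Ico] at hi
      rw [Finset.mem_union, hM, hX, Finset.mem_filter, Finset.mem_filter, Finset.mem_Ico]
      rcases occ_imp en hk hJB hi.1.1 (by omega) hi.2 with h | h
      · exact Or.inl ⟨hi.1, h.1⟩
      · exact Or.inr ⟨hi.1, h⟩
    have c1 : (#M : ℝ) ≤ #O := by exact_mod_cast Finset.card_le_card hMO
    have c2 : (#O : ℝ) ≤ #M + #X := by
      exact_mod_cast (Finset.card_le_card hOMX).trans (Finset.card_union_le _ _)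
    have e : ∑ i ∈ Ico (a J) b, ((if occ (E en) B i then (1 : ℝ) else 0) - 1 * wt Q k i) =
        #O - ∑ i ∈ Ico (a J) b, wt Q k i := by
      rw [Finset.sum_sub_distrib, ind_sum]
      congr 1
      exact Finset.sum_congr rfl fun i _ => one_mul _
    rw [e]
    have hD : (D J : ℝ) = Lam J + 2 * J + 2 := by unfold D; push_cast; ring
    have hkJ : (k : ℝ) ≤ J := by exact_mod_cast hJk
    have hL0 : (0 : ℝ) ≤ Lam J := by positivity
    have hs0 : 0 ≤ (1 / (J : ℝ)) * ∑ i ∈ Ico (a J) b, wt Q k i :=
      mul_nonneg (by positivity) (Finset.sum_nonneg fun _ _ => wt_nonneg _ _ _)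
    rw [hD]
    rw [abs_le] at hm ⊢
    constructor <;> linarith [hm.1, hm.2]

/-- occurrences at positions that are never main are negligible -/
theorem freq_zero {k : ℕ} (hk : 0 < k) (B : Fin k → ℕ) (p : ℕ → Prop) [DecidablePred p]
    (hp : ∀ J i, idx B < J → a J ≤ i → i < a (J + 1) → mainPos B J i → en k → ¬ p i) :
    Tendsto (fun n => (cnt (E en) B p n : ℝ) / Qs Q k n) atTop (𝓝 0) := by
  classical
  have h := limit k (fun i => if occ (E en) B i ∧ p i then (1 : ℝ) else 0) 0
    (max k (idx B + 1)) ?_
  · refine h.congr fun n => ?_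
    rw [ind_sum, cnt]
  · intro J hJ b h1 h2
    have hJB : idx B < J := by have := le_max_right k (idx B + 1); omega
    have hJk : k ≤ J := (le_max_left _ _).trans hJ
    have hJ0 : 0 < J := by omega
    have hx := extra_stage k hJ0 h1 h2
    set X := (Ico (a J) b).filter fun i => extraPos k J i with hX
    set O := (Ico (a J) b).filter fun i => occ (E en) B i ∧ p i with hO
    have hOX : O ⊆ X := by
      intro i hi
      rw [hO, Finset.mem_filter, Finset.mem_Ico] at hi
      rw [hX, Finset.mem_filter, Finset.mem_Ico]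
      rcases occ_imp en hk hJB hi.1.1 (by omega) hi.2.1 with h | h
      · exact absurd hi.2.2 (hp J i hJB hi.1.1 (by omega) h.1 h.2)
      · exact ⟨hi.1, h⟩
    have c2 : (#O : ℝ) ≤ #X := by exact_mod_cast Finset.card_le_card hOX
    have e : ∑ i ∈ Ico (a J) b, ((if occ (E en) B i ∧ p i then (1 : ℝ) else 0) - 0 * wt Q k i) =
        #O := by
      rw [Finset.sum_sub_distrib, ind_sum, hO]
      simp only [zero_mul, Finset.sum_const_zero, sub_zero]
    rw [e, abs_of_nonneg (by positivity)]
    have hD : (D J : ℝ) = Lam J + 2 * J + 2 := by unfold D; push_cast; ring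
    have hkJ : (k : ℝ) ≤ J := by exact_mod_cast hJk
    rw [hD]
    have : (0 : ℝ) ≤ J := by positivity
    linarith

/-! ## Monotone weights along progressions -/

lemma wt_antitone {Q : ℕ → ℕ} (hQ : Monotone Q) (h2 : ∀ n, 2 ≤ Q n) (k : ℕ) :
    Antitone (wt Q k) := by
  intro i j hij
  unfold wt
  apply inv_anti₀
  · apply Finset.prod_pos
    intro t _
    have := h2 (i + t)
    positivity
  · apply Finset.prod_le_prod
    · intro t _; positivity
    · intro t _
      exact_mod_cast hQ (by omega)

/-- the weight along a progression -/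
noncomputable def Qap (Q : ℕ → ℕ) (k m r n : ℕ) : ℝ :=
  ∑ j ∈ (Icc 1 n).filter (fun j => j % m = r), wt Q k j

/-- the weight along a progression is at least (about) `1/m` of the total -/
lemma Qap_ge {Q : ℕ → ℕ} (hQ : Monotone Q) (h2 : ∀ n, 2 ≤ Q n) (k m r n : ℕ) (hm : 0 < m)
    (hr : r < m) : Qs Q k n ≤ m * Qap Q k m r n + 2 * m := by
  have hanti := wt_antitone hQ h2 k
  have hle1 : ∀ i, wt Q k i ≤ 1 := by
    intro i
    unfold wt
    apply inv_le_one_of_one_le₀
    have : ∀ t ∈ range k, (1 : ℝ) ≤ (Q (i + t) : ℝ) := by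
      intro t _
      have := h2 (i + t)
      exact_mod_cast (by omega : 1 ≤ Q (i + t))
    calc (1 : ℝ) = ∏ _t ∈ range k, (1 : ℝ) := by simp
      _ ≤ ∏ t ∈ range k, (Q (i + t) : ℝ) :=
        Finset.prod_le_prod (fun _ _ => zero_le_one) this
  -- each index `j > 2m`, `j ≤ n` is mapped to the largest index `≤ j` congruent to `r`
  set φ : ℕ → ℕ := fun j => j - (j + m - r) % m with hφ
  have hφ1 : ∀ j, 2 * m < j → φ j % m = r ∧ φ j ≤ j ∧ j < φ j + m ∧ 1 ≤ φ j := by
    intro j hj
    have h3 := Nat.mod_lt (j + m - r) hm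
    simp only [hφ]
    refine ⟨?_, by omega, by omega, by omega⟩
    have h4 : j + m - r = m * ((j + m - r) / m) + (j + m - r) % m := (Nat.div_add_mod _ _).symm
    set d := (j + m - r) / m with hd
    set c := (j + m - r) % m with hc
    have h5 : j - c + m = r + m * d := by omega
    have h6 : (j - c + m) % m = r := by
      rw [h5, Nat.add_mul_mod_self_left, Nat.mod_eq_of_lt hr]
    rwa [Nat.add_mod_right] at h6
  have hsplit : Qs Q k n ≤ ∑ j ∈ (Icc 1 n).filter (fun j => 2 * m < j), wt Q k j + 2 * m := by
    unfold Qs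
    rw [← Finset.sum_filter_add_sum_filter_not (Icc 1 n) (fun j => 2 * m < j)]
    have h3 : ∑ j ∈ (Icc 1 n).filter (fun j => ¬ 2 * m < j), wt Q k j ≤ 2 * m := by
      calc ∑ j ∈ (Icc 1 n).filter (fun j => ¬ 2 * m < j), wt Q k j
          ≤ ∑ _j ∈ (Icc 1 n).filter (fun j => ¬ 2 * m < j), (1 : ℝ) :=
            Finset.sum_le_sum fun i _ => hle1 i
        _ ≤ ∑ _j ∈ Icc 1 (2 * m), (1 : ℝ) := by
            apply Finset.sum_le_sum_of_subset_of_nonneg
            · intro j hj
              rw [Finset.mem_filter, Finset.mem_Icc] at hj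
              rw [Finset.mem_Icc]
              omega
            · intro _ _ _; exact zero_le_one
        _ = 2 * m := by simp
    linarith
  have hmain : ∑ j ∈ (Icc 1 n).filter (fun j => 2 * m < j), wt Q k j ≤ m * Qap Q k m r n := by
    calc ∑ j ∈ (Icc 1 n).filter (fun j => 2 * m < j), wt Q k j
        ≤ ∑ j ∈ (Icc 1 n).filter (fun j => 2 * m < j), wt Q k (φ j) := by
          apply Finset.sum_le_sum
          intro j hj
          rw [Finset.mem_filter] at hj
          exact hanti (hφ1 j hj.2).2.1
      _ = ∑ i ∈ ((Icc 1 n).filter (fun j => 2 * m < j)).image φ,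
            ∑ j ∈ ((Icc 1 n).filter (fun j => 2 * m < j)) with φ j = i, wt Q k (φ j) := by
          rw [Finset.sum_fiberwise_of_maps_to]
          intro j hj
          exact Finset.mem_image_of_mem _ hj
      _ ≤ ∑ i ∈ ((Icc 1 n).filter (fun j => 2 * m < j)).image φ, m * wt Q k i := by
          apply Finset.sum_le_sum
          intro i _
          have e : ∑ j ∈ ((Icc 1 n).filter (fun j => 2 * m < j)) with φ j = i, wt Q k (φ j) =
              ∑ _j ∈ ((Icc 1 n).filter (fun j => 2 * m < j)) with φ _j = i, wt Q k i := by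
            refine Finset.sum_congr rfl fun j hj => ?_
            rw [Finset.mem_filter] at hj
            rw [hj.2]
          rw [e, Finset.sum_const, nsmul_eq_mul]
          apply mul_le_mul_of_nonneg_right _ (wt_nonneg _ _ _)
          have hsub : (((Icc 1 n).filter (fun j => 2 * m < j)).filter (fun j => φ j = i)) ⊆
              Ico i (i + m) := by
            intro j hj
            rw [Finset.mem_filter, Finset.mem_filter] at hj
            have := hφ1 j hj.1.2
            rw [Finset.mem_Ico]
            omega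
          have := Finset.card_le_card hsub
          rw [Nat.card_Ico] at this
          have : #(((Icc 1 n).filter (fun j => 2 * m < j)).filter (fun j => φ j = i)) ≤ m := by
            omega
          exact_mod_cast this
      _ ≤ ∑ i ∈ (Icc 1 n).filter (fun j => j % m = r), m * wt Q k i := by
          apply Finset.sum_le_sum_of_subset_of_nonneg
          · intro i hi
            rw [Finset.mem_image] at hi
            obtain ⟨j, hj, rfl⟩ := hi
            rw [Finset.mem_filter, Finset.mem_Icc] at hj
            have := hφ1 j hj.2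
            rw [Finset.mem_filter, Finset.mem_Icc]
            exact ⟨by omega, this.1⟩
          · intro i _ _
            exact mul_nonneg (by positivity) (wt_nonneg _ _ _)
      _ = m * Qap Q k m r n := by rw [Qap, Finset.mul_sum]
  linarith

lemma tendsto_Qap (k m r : ℕ) (hm : 0 < m) (hr : r < m) :
    Tendsto (fun n => Qap Q k m r n) atTop atTop := by
  have hmr : (0 : ℝ) < m := by exact_mod_cast hm
  have h1 : ∀ n, (Qs Q k n - 2 * m) / m ≤ Qap Q k m r n := by
    intro n
    rw [div_le_iff₀ hmr]
    have := Qap_ge Q_mono (fun n => two_le_q _) k m r n hm hr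
    linarith
  apply tendsto_atTop_mono h1
  apply Tendsto.atTop_div_const hmr
  exact tendsto_atTop_add_const_right _ _ (tendsto_Qs k)

/-! ## The real number -/

/-- `E` is the sequence of digits of the `Q`-Cantor series expansion of `x` -/
def IsExpansion (Q : ℕ → ℕ) (x : ℝ) (E : ℕ → ℕ) : Prop :=
  (∀ n, 1 ≤ n → E n < Q n) ∧ (∀ N, ∃ n, N ≤ n ∧ E n ≠ Q n - 1) ∧
    HasSum (fun n : ℕ => (E (n + 1) : ℝ) / ∏ i ∈ Icc 1 (n + 1), (Q i : ℝ)) (x - ⌊x⌋)

/-- existence of a real number with given digits -/
lemma exists_real (Q E : ℕ → ℕ) (h2 : ∀ n, 2 ≤ Q n) (hE : ∀ n, 1 ≤ n → E n < Q n)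
    (hinf : ∀ N, ∃ n, N ≤ n ∧ E n ≠ Q n - 1) : ∃ x : ℝ, IsExpansion Q x E := by
  set P : ℕ → ℝ := fun n => ∏ i ∈ Icc 1 n, (Q i : ℝ) with hP
  have hP0 : ∀ n, 0 < P n := fun n => Finset.prod_pos fun i _ => by
    have := h2 i
    positivity
  have hPs : ∀ n, P (n + 1) = P n * Q (n + 1) := fun n => by
    simp only [hP]
    rw [Finset.prod_Icc_succ_top (by omega)]
  set f : ℕ → ℝ := fun n => (E (n + 1) : ℝ) / P (n + 1) with hf
  have hf0 : ∀ n, 0 ≤ f n := fun n => div_nonneg (by positivity) (hP0 _).le
  have hfle : ∀ n, f n ≤ 1 / P n - 1 / P (n + 1) := by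
    intro n
    have h3 : (E (n + 1) : ℝ) ≤ Q (n + 1) - 1 := by
      have := hE (n + 1) (by omega)
      have : E (n + 1) + 1 ≤ Q (n + 1) := this
      have : (E (n + 1) : ℝ) + 1 ≤ Q (n + 1) := by exact_mod_cast this
      linarith
    simp only [hf]
    have e : 1 / P n - 1 / P (n + 1) = ((Q (n + 1) : ℝ) - 1) / P (n + 1) := by
      rw [hPs]
      have := hP0 n
      have : (0 : ℝ) < Q (n + 1) := by have := h2 (n + 1); positivity
      field_simp
    rw [e]
    exact div_le_div_of_nonneg_right h3 (hP0 _).le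
  have hpart : ∀ m n, m ≤ n → ∑ i ∈ Ico m n, f i ≤ 1 / P m - 1 / P n := by
    intro m n hmn
    induction n, hmn using Nat.le_induction with
    | base => simp
    | succ n hmn ih =>
      rw [Finset.sum_Ico_succ_top hmn]
      have := hfle n
      linarith
  have hsum : Summable f := by
    apply summable_of_sum_range_le (c := 1 / P 0) hf0
    intro n
    rw [Finset.range_eq_Ico]
    have h3 := hpart 0 n (Nat.zero_le _)
    have : 0 < 1 / P n := by have := hP0 n; positivity
    linarith
  refine ⟨∑' n, f n, hE, hinf, ?_⟩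
  have hx0 : 0 ≤ ∑' n, f n := tsum_nonneg hf0
  have hx1 : ∑' n, f n < 1 := by
    obtain ⟨n₁, hn₁, hne⟩ := hinf 1
    obtain ⟨j, rfl⟩ : ∃ j, n₁ = j + 1 := ⟨n₁ - 1, by omega⟩
    have hstrict : f j + 1 / P (j + 1) ≤ 1 / P j - 1 / P (j + 1) := by
      have h3 : (E (j + 1) : ℝ) ≤ Q (j + 1) - 2 := by
        have h4 := hE (j + 1) (by omega)
        have h5 := h2 (j + 1)
        have : E (j + 1) + 2 ≤ Q (j + 1) := by omega
        have : (E (j + 1) : ℝ) + 2 ≤ Q (j + 1) := by exact_mod_cast this
        linarith
      simp only [hf]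
      have e : 1 / P j - 1 / P (j + 1) = ((Q (j + 1) : ℝ) - 1) / P (j + 1) := by
        rw [hPs]
        have := hP0 j
        have : (0 : ℝ) < Q (j + 1) := by have := h2 (j + 1); positivity
        field_simp
      rw [e, ← add_div]
      exact div_le_div_of_nonneg_right (by linarith) (hP0 _).le
    have hbound : ∀ n, ∑ i ∈ range n, f i ≤ 1 - 1 / P (j + 1) := by
      intro n
      have hP00 : P 0 = 1 := by simp [hP]
      have h3 : ∑ i ∈ range n, f i ≤ ∑ i ∈ range (n + j + 1), f i :=
        Finset.sum_le_sum_of_subset_of_nonneg (Finset.range_mono (by omega))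
          (fun i _ _ => hf0 i)
      have h4 : ∑ i ∈ range (n + j + 1), f i =
          ∑ i ∈ Ico 0 j, f i + f j + ∑ i ∈ Ico (j + 1) (n + j + 1), f i := by
        rw [Finset.range_eq_Ico, ← Finset.sum_Ico_consecutive f (Nat.zero_le j)
          (show j ≤ n + j + 1 by omega), Finset.sum_eq_sum_Ico_succ_bot (show j < n + j + 1 by omega)]
        ring
      have h5 := hpart 0 j (Nat.zero_le _)
      have h6 := hpart (j + 1) (n + j + 1) (by omega)
      rw [hP00] at h5
      have h7 : 0 < 1 / P (n + j + 1) := by have := hP0 (n + j + 1); positivity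
      rw [h4] at h3
      linarith
    have h8 := hsum.tsum_le_of_sum_range_le hbound
    have h9 : 0 < 1 / P (j + 1) := by have := hP0 (j + 1); positivity
    linarith
  have hfloor : ⌊∑' n, f n⌋ = 0 := Int.floor_eq_zero_iff.mpr ⟨hx0, hx1⟩
  rw [hfloor, Int.cast_zero, sub_zero]
  exact hsum.hasSum

/-- infinitely many digits of our expansion are not maximal -/
lemma E_inf {k : ℕ} (hk : 0 < k) (hen : en k) (N : ℕ) : ∃ n, N ≤ n ∧ E en n ≠ Q n - 1 := by
  classical
  by_contra hcon
  push Not at hcon
  set B : Fin k → ℕ := fun _ => 0 with hB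
  have h1 := freq_one en hk hen B
  have h2 := tendsto_Qs k
  -- the number of occurrences is bounded
  have hbd : ∀ n, (cnt (E en) B (fun _ => True) n : ℝ) ≤ N := by
    intro n
    have hsub : (Icc 1 n).filter (fun i => occ (E en) B i ∧ True) ⊆ range N := by
      intro i hi
      rw [Finset.mem_filter] at hi
      rw [Finset.mem_range]
      by_contra hge
      push Not at hge
      have h3 := hcon i hge
      have h4 := hi.2.1 ⟨0, hk⟩
      simp only [add_zero, hB] at h4
      have h5 : 2 ≤ Q i := two_le_q _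
      omega
    have := Finset.card_le_card hsub
    rw [Finset.card_range] at this
    have h6 : cnt (E en) B (fun _ => True) n ≤ N := by
      unfold cnt
      convert this
    exact_mod_cast h6
  have h3 : Tendsto (fun n => (cnt (E en) B (fun _ => True) n : ℝ) / Qs Q k n) atTop (𝓝 0) := by
    have h4 : Tendsto (fun n => (N : ℝ) / Qs Q k n) atTop (𝓝 0) :=
      Tendsto.div_atTop tendsto_const_nhds h2
    refine tendsto_of_tendsto_of_tendsto_of_le_of_le' tendsto_const_nhds h4 ?_ ?_
    · filter_upwards [h2.eventually_gt_atTop 0] with n hn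
      positivity
    · filter_upwards [h2.eventually_gt_atTop 0] with n hn
      exact div_le_div_of_nonneg_right (hbd n) hn.le
  have := tendsto_nhds_unique h1 h3
  norm_num at this

end Q263.CS
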